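import Pool.Agent.H71.MT.Main

/-!
There are infinite classes of finite graphs such that the second one is an FO+MOD transduction,
but not an FO transduction, of the first one.
-/

namespace Pool.Agent.Results.MP_e18332_lc.ModTransduction

open Pool.Agent.H71.MT

/-- There are infinite classes `𝒞`, `𝒟` of finite graphs such that `𝒟` is an FO+MOD transduction
of `𝒞` but not an FO transduction of `𝒞`. -/
theorem result :
    ∃ 𝒞 𝒟 : GraphClass, 𝒞.Infinite ∧ 𝒟.Infinite ∧
      (∃ T : Transd, IsFOMod T.ν ∧ IsFOMod T.η ∧ T.Produces 𝒞 𝒟) ∧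
      ¬ ∃ T : Transd, IsFO T.ν ∧ IsFO T.η ∧ T.Produces 𝒞 𝒟 :=
  main

end Pool.Agent.Results.MP_e18332_lc.ModTransduction
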